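import Pool.Agent.H.MP_df7994_gt.Avg
import Pool.Agent.H.MP_df7994_gt.Aff

/-!
# Symplectic forms on the four-torus with infinitely many affine symmetries (MP_df7994_gt)

2-forms on `ℝ⁴/ℤ⁴` are `ℤ⁴`-periodic skew-symmetric `4 × 4` matrix functions on `ℝ⁴`.
-/

set_option autoImplicit false

namespace Pool.Agent.Results.MP_df7994_gt.AffineSymmetries

open Set Topology Matrix

/-- A symplectic form on the four-torus: smooth, skew, periodic, closed, nondegenerate. -/
structure IsSymplectic (α : (Fin 4 → ℝ) → Matrix (Fin 4) (Fin 4) ℝ) : Prop where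
  smooth : ∀ i j, ContDiff ℝ ((⊤ : ℕ∞) : WithTop ℕ∞) (fun x => α x i j)
  skew : ∀ x i j, α x i j = - α x j i
  periodic : ∀ x (v : Fin 4 → ℤ), α (x + (fun m => ((v m : ℤ) : ℝ))) = α x
  closed : ∀ x i j k,
    fderiv ℝ (fun y => α y j k) x (Pi.single i 1)
      + fderiv ℝ (fun y => α y k i) x (Pi.single j 1)
      + fderiv ℝ (fun y => α y i j) x (Pi.single k 1) = 0
  nondeg : ∀ x, (α x).det ≠ 0

/-- The Pfaffian of a skew `4 × 4` matrix: `α ∧ α = 2 Pf(α) dx₀∧dx₁∧dx₂∧dx₃`. -/
def pfaffian (A : Matrix (Fin 4) (Fin 4) ℝ) : ℝ :=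
  A 0 1 * A 2 3 - A 0 2 * A 1 3 + A 0 3 * A 1 2

/-- The contraction `ι_v A` of a 2-form with a vector. -/
def contraction (v : Fin 4 → ℝ) (A : Matrix (Fin 4) (Fin 4) ℝ) : Fin 4 → ℝ :=
  fun j => ∑ i, v i * A i j

/-- The linear part of an affine automorphism of the torus, as a real matrix. -/
def real (A : Matrix (Fin 4) (Fin 4) ℤ) : Matrix (Fin 4) (Fin 4) ℝ := A.map fun z : ℤ => (z : ℝ)

/-- The affine automorphism `φ(x) = A x + b` of the four-torus, `det A = ±1`, preserves `α`: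
`φ^* α = α`. -/
def PreservesForm (α : (Fin 4 → ℝ) → Matrix (Fin 4) (Fin 4) ℝ) (A : Matrix (Fin 4) (Fin 4) ℤ)
    (b : Fin 4 → ℝ) : Prop :=
  (A.det = 1 ∨ A.det = -1) ∧ ∀ x, (real A)ᵀ * α (real A *ᵥ x + b) * real A = α x

/-- The affine automorphism `φ(x) = A x + b` of the four-torus, `det A = ±1`, preserves the
almost complex structure `J`: `J ∘ dφ = dφ ∘ J`. -/
def PreservesStructure (J : (Fin 4 → ℝ) → Matrix (Fin 4) (Fin 4) ℝ)
    (A : Matrix (Fin 4) (Fin 4) ℤ) (b : Fin 4 → ℝ) : Prop :=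
  (A.det = 1 ∨ A.det = -1) ∧ ∀ x, J (real A *ᵥ x + b) * real A = real A * J x

/-- Infinitely many affine automorphisms `x ↦ A x + b` of `ℝ⁴/ℤ⁴` satisfy `P`; the translation
part `b` is taken in `[0,1)⁴`. -/
def InfinitelyMany (P : Matrix (Fin 4) (Fin 4) ℤ → (Fin 4 → ℝ) → Prop) : Prop :=
  {p : Matrix (Fin 4) (Fin 4) ℤ × (Fin 4 → ℝ) |
    (∀ i, 0 ≤ p.2 i ∧ p.2 i < 1) ∧ P p.1 p.2}.Infinite

/-- `J` is a smooth almost complex structure on the four-torus tamed by `α`. -/
structure Tames (α J : (Fin 4 → ℝ) → Matrix (Fin 4) (Fin 4) ℝ) : Prop where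
  smooth : ∀ i j, ContDiff ℝ ((⊤ : ℕ∞) : WithTop ℕ∞) (fun x => J x i j)
  periodic : ∀ x (v : Fin 4 → ℤ), J (x + (fun m => ((v m : ℤ) : ℝ))) = J x
  square : ∀ x, J x * J x = -1
  tame : ∀ x (v : Fin 4 → ℝ), v ≠ 0 → 0 < ∑ i, ∑ j, v i * α x i j * (J x *ᵥ v) j

/-- `α`, or an almost complex structure tamed by `α`, is preserved by infinitely many affine
automorphisms of the four-torus. -/
def HasInfiniteSymmetry (α : (Fin 4 → ℝ) → Matrix (Fin 4) (Fin 4) ℝ) : Prop :=
  InfinitelyMany (PreservesForm α) ∨ ∃ J, Tames α J ∧ InfinitelyMany (PreservesStructure J)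

/-- `α` is invariant under all translations in some direction `v ≠ 0`. -/
def HasInvariantDirection (α : (Fin 4 → ℝ) → Matrix (Fin 4) (Fin 4) ℝ) : Prop :=
  ∃ v : Fin 4 → ℝ, v ≠ 0 ∧ ∀ x (t : ℝ), α (x + t • v) = α x

/-- There are a constant vector `v`, a constant 1-form `u` with `u(v) ≠ 0` and a smooth periodic
closed 1-form `η` such that at no point a form `η + l ι_v α` with `l ≥ 0` is a multiple of `u`. -/
def HasClosedCompanion (α : (Fin 4 → ℝ) → Matrix (Fin 4) (Fin 4) ℝ) : Prop :=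
  ∃ (v u : Fin 4 → ℝ) (η : (Fin 4 → ℝ) → Fin 4 → ℝ),
    ∑ i, u i * v i ≠ 0 ∧
    (∀ i, ContDiff ℝ ((⊤ : ℕ∞) : WithTop ℕ∞) (fun x => η x i)) ∧
    (∀ x (z : Fin 4 → ℤ), η (x + (fun m => ((z m : ℤ) : ℝ))) = η x) ∧
    (∀ x i j, fderiv ℝ (fun y => η y j) x (Pi.single i 1) =
      fderiv ℝ (fun y => η y i) x (Pi.single j 1)) ∧
    ∀ x (l : ℝ), 0 ≤ l → ∀ m : ℝ, η x + l • contraction v (α x) ≠ m • u

/-- A form invariant under all translations in one direction is preserved by infinitely many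
affine automorphisms. -/
theorem infinitelyMany_of_invariant {α : (Fin 4 → ℝ) → Matrix (Fin 4) (Fin 4) ℝ}
    (hα : IsSymplectic α) (h : HasInvariantDirection α) : InfinitelyMany (PreservesForm α) := by
  obtain ⟨v, hv0, hv⟩ := h
  obtain ⟨i, hi⟩ : ∃ i, v i ≠ 0 := by
    by_contra hcon
    push Not at hcon
    exact hv0 (funext hcon)
  have hinf : (Set.Ioo (0 : ℝ) 1).Infinite := Set.Ioo_infinite one_pos
  -- the translations by `(s / v i) • v`, `0 < s < 1`, modulo `ℤ⁴`
  refine Set.infinite_of_injOn_mapsTo (s := Set.Ioo (0 : ℝ) 1)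
    (f := fun s : ℝ => ((1 : Matrix (Fin 4) (Fin 4) ℤ),
      fun k => Int.fract (((s / v i) • v) k))) ?_ ?_ hinf
  · intro s hs t ht hst
    have h1 := congrFun (Prod.ext_iff.1 hst).2 i
    simp only [Pi.smul_apply, smul_eq_mul] at h1
    rw [div_mul_cancel₀ _ hi, div_mul_cancel₀ _ hi, Int.fract_eq_self.2 ⟨hs.1.le, hs.2⟩,
      Int.fract_eq_self.2 ⟨ht.1.le, ht.2⟩] at h1
    exact h1
  · intro s hs
    refine ⟨fun k => ⟨Int.fract_nonneg _, Int.fract_lt_one _⟩, Or.inl Matrix.det_one, fun x => ?_⟩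
    have h1 : real (1 : Matrix (Fin 4) (Fin 4) ℤ) = 1 := H.MP_df7994_gt.rm_one
    simp only [h1, Matrix.transpose_one, one_mul, mul_one, Matrix.one_mulVec]
    have h2 := hα.periodic (x + fun k => Int.fract (((s / v i) • v) k))
      (fun k => ⌊((s / v i) • v) k⌋)
    have h3 : x + (fun k => Int.fract (((s / v i) • v) k)) +
        (fun m => ((⌊((s / v i) • v) m⌋ : ℤ) : ℝ)) = x + (s / v i) • v := by
      funext k
      show x k + Int.fract (((s / v i) • v) k) + ((⌊((s / v i) • v) k⌋ : ℤ) : ℝ) =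
        x k + ((s / v i) • v) k
      rw [add_assoc, Int.fract_add_floor]
    rw [h3, hv] at h2
    exact h2.symm

/-- A form preserved by infinitely many affine automorphisms has an invariant direction. -/
theorem invariant_of_infinitelyMany {α : (Fin 4 → ℝ) → Matrix (Fin 4) (Fin 4) ℝ}
    (hα : IsSymplectic α) (h : InfinitelyMany (PreservesForm α)) : HasInvariantDirection α := by
  obtain ⟨v, hv0, hv⟩ := H.MP_df7994_gt.line_of_infinite (F := fun x i j => α x i j)
    (contDiff_pi.2 fun i => contDiff_pi.2 fun j => hα.smooth i j)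
    (fun x l => by
      funext i j
      exact congrFun (congrFun (hα.periodic x l) i) j)
    _ h (fun p hp => ⟨fun i => (hp.1 i).1, fun i => (hp.1 i).2.le⟩) (fun p hp => hp.2.1)
    (fun A => (H.MP_df7994_gt.rm (H.MP_df7994_gt.inv4 A))ᵀ)
    (fun A => H.MP_df7994_gt.rm (H.MP_df7994_gt.inv4 A))
    (fun p hp R hR hA => ⟨fun i j => H.MP_df7994_gt.inv4_bound hp.2.1 hR hA j i,
      fun i j => H.MP_df7994_gt.inv4_bound hp.2.1 hR hA i j⟩)
    (fun p hp x => by
      rw [H.MP_df7994_gt.cj_apply]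
      have h1 : real p.1 * H.MP_df7994_gt.rm (H.MP_df7994_gt.inv4 p.1) = 1 := by
        show H.MP_df7994_gt.rm p.1 * _ = 1
        rw [← H.MP_df7994_gt.rm_mul, H.MP_df7994_gt.mul_inv4 hp.2.1, H.MP_df7994_gt.rm_one]
      have h2 : (H.MP_df7994_gt.rm (H.MP_df7994_gt.inv4 p.1))ᵀ * (real p.1)ᵀ = 1 := by
        rw [← Matrix.transpose_mul, h1, Matrix.transpose_one]
      have h3 : α (real p.1 *ᵥ x + p.2) = (H.MP_df7994_gt.rm (H.MP_df7994_gt.inv4 p.1))ᵀ * α x *
          H.MP_df7994_gt.rm (H.MP_df7994_gt.inv4 p.1) := by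
        rw [← hp.2.2 x]
        calc α (real p.1 *ᵥ x + p.2) = 1 * α (real p.1 *ᵥ x + p.2) * 1 := by
              rw [one_mul, mul_one]
          _ = ((H.MP_df7994_gt.rm (H.MP_df7994_gt.inv4 p.1))ᵀ * (real p.1)ᵀ) *
              α (real p.1 *ᵥ x + p.2) *
              (real p.1 * H.MP_df7994_gt.rm (H.MP_df7994_gt.inv4 p.1)) := by rw [h1, h2]
          _ = _ := by simp only [Matrix.mul_assoc]
      funext i j
      exact congrFun (congrFun h3 i) j)
  refine ⟨v, hv0, fun x t => ?_⟩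
  ext i j
  exact congrFun (congrFun (hv x t) i) j

/-- A symplectic form with an invariant direction has a closed companion: `u = v` and `η = ι_v α`. -/
theorem companion_of_invariant {α : (Fin 4 → ℝ) → Matrix (Fin 4) (Fin 4) ℝ}
    (hα : IsSymplectic α) (h : HasInvariantDirection α) : HasClosedCompanion α := by
  obtain ⟨v, hv0, hv⟩ := h
  refine ⟨v, v, H.MP_df7994_gt.contr α v, ?_, fun j => ?_, fun x z => ?_, fun x i j => ?_,
    fun x l hl m h => ?_⟩
  · have h1 := (H.MP_df7994_gt.sq_pos_of_ne hv0).ne'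
    have h2 : ∑ i, v i * v i = ∑ i, v i ^ 2 := Finset.sum_congr rfl fun i _ => by ring
    rwa [h2]
  · exact ContDiff.sum fun i _ => contDiff_const.mul (hα.smooth i j)
  · unfold H.MP_df7994_gt.contr
    rw [hα.periodic x z]
  · exact H.MP_df7994_gt.contr_closed hα.smooth hα.skew hα.closed hv x i j
  · have h0 : ∀ j, (1 + l) * H.MP_df7994_gt.contr α v x j = m * v j := by
      intro j
      have h1 : H.MP_df7994_gt.contr α v x j + l * H.MP_df7994_gt.contr α v x j = m * v j :=
        congrFun h j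
      linarith
    have h1 := H.MP_df7994_gt.contr_orth hα.skew v x
    have h2 : m * ∑ j, v j ^ 2 = (1 + l) * ∑ j, H.MP_df7994_gt.contr α v x j * v j := by
      rw [Finset.mul_sum, Finset.mul_sum]
      refine Finset.sum_congr rfl fun j _ => ?_
      linear_combination -(v j) * h0 j
    rw [h1, mul_zero] at h2
    have h3 : m = 0 := (mul_eq_zero.1 h2).resolve_right (H.MP_df7994_gt.sq_pos_of_ne hv0).ne'
    apply H.MP_df7994_gt.contr_ne hα.skew hα.nondeg hv0 x
    funext j
    have h4 := h0 j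
    rw [h3, zero_mul] at h4
    exact (mul_eq_zero.1 h4).resolve_left (by linarith)

theorem le_pow {R : ℝ} (hR : 1 ≤ R) : R ≤ 24 * R ^ 4 := by
  have h1 : R ≤ R ^ 4 := by
    calc R = R ^ 1 := (pow_one R).symm
      _ ≤ R ^ 4 := pow_le_pow_right₀ hR (by norm_num)
  have h2 : 0 ≤ R ^ 4 := by positivity
  linarith

/-- A form taming an almost complex structure with infinitely many affine symmetries has a closed
companion. -/
theorem companion_of_tame {α J : (Fin 4 → ℝ) → Matrix (Fin 4) (Fin 4) ℝ}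
    (hα : IsSymplectic α) (hJ : Tames α J) (h : InfinitelyMany (PreservesStructure J)) :
    HasClosedCompanion α := by
  obtain ⟨v, hv0, hv⟩ := H.MP_df7994_gt.line_of_infinite (F := fun x i j => J x i j)
    (contDiff_pi.2 fun i => contDiff_pi.2 fun j => hJ.smooth i j)
    (fun x l => by
      funext i j
      exact congrFun (congrFun (hJ.periodic x l) i) j)
    _ h (fun p hp => ⟨fun i => (hp.1 i).1, fun i => (hp.1 i).2.le⟩) (fun p hp => hp.2.1)
    (fun A => H.MP_df7994_gt.rm A) (fun A => H.MP_df7994_gt.rm (H.MP_df7994_gt.inv4 A))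
    (fun p hp R hR hA => ⟨fun i j => (hA i j).trans (le_pow hR),
      fun i j => H.MP_df7994_gt.inv4_bound hp.2.1 hR hA i j⟩)
    (fun p hp x => by
      rw [H.MP_df7994_gt.cj_apply]
      have h1 : real p.1 * H.MP_df7994_gt.rm (H.MP_df7994_gt.inv4 p.1) = 1 := by
        show H.MP_df7994_gt.rm p.1 * _ = 1
        rw [← H.MP_df7994_gt.rm_mul, H.MP_df7994_gt.mul_inv4 hp.2.1, H.MP_df7994_gt.rm_one]
      have h3 : J (real p.1 *ᵥ x + p.2) = real p.1 * J x *
          H.MP_df7994_gt.rm (H.MP_df7994_gt.inv4 p.1) := by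
        rw [← hp.2.2 x, Matrix.mul_assoc, h1, mul_one]
      funext i j
      exact congrFun (congrFun h3 i) j)
  -- the group of periods of `J`
  let G : AddSubgroup (Fin 4 → ℝ) :=
    { carrier := {s | ∀ x, J (x + s) = J x}
      add_mem' := fun {a b} ha hb x => by
        rw [← add_assoc, hb, ha]
      zero_mem' := fun x => by rw [add_zero]
      neg_mem' := fun {a} ha x => by
        have := ha (x + -a)
        rw [neg_add_cancel_right] at this
        exact this.symm }
  have hJc : Continuous J := continuous_matrix fun i j => (hJ.smooth i j).continuous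
  have hG : IsClosed (G : Set (Fin 4 → ℝ)) := by
    have : (G : Set (Fin 4 → ℝ)) = ⋂ x, {s | J (x + s) = J x} := by
      ext s
      simp only [mem_iInter]
      rfl
    rw [this]
    exact isClosed_iInter fun x => isClosed_eq
      (hJc.comp (continuous_const.add continuous_id)) continuous_const
  obtain ⟨q, hq0, hq⟩ := H.MP_df7994_gt.rational_line G hG (fun l x => hJ.periodic x l) v hv0
    (fun t x => by
      ext i j
      exact congrFun (congrFun (hv x t) i) j)
  have hqne : H.MP_df7994_gt.iv q ≠ 0 := by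
    intro h0
    apply hq0
    funext i
    have := congrFun h0 i
    simpa [H.MP_df7994_gt.iv] using this
  have hpos : ∀ x, 0 < ∑ j, H.MP_df7994_gt.contr α (H.MP_df7994_gt.iv q) x j *
      (J x *ᵥ H.MP_df7994_gt.iv q) j := by
    intro x
    have h1 := hJ.tame x (H.MP_df7994_gt.iv q) hqne
    rw [Finset.sum_comm] at h1
    refine h1.trans_le (le_of_eq ?_)
    refine Finset.sum_congr rfl fun j _ => ?_
    unfold H.MP_df7994_gt.contr
    rw [Finset.sum_mul]
  obtain ⟨η, hη, hηp, hcl, hηq, hηY⟩ := H.MP_df7994_gt.closed_average hα.smooth hα.skew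
    hα.periodic hα.closed q (fun x => J x *ᵥ H.MP_df7994_gt.iv q)
    (fun x t => by rw [hq t x]) hpos
  have hqq : ∑ i, H.MP_df7994_gt.iv q i * H.MP_df7994_gt.iv q i ≠ 0 := by
    have h1 := (H.MP_df7994_gt.sq_pos_of_ne hqne).ne'
    have h2 : ∑ i, H.MP_df7994_gt.iv q i * H.MP_df7994_gt.iv q i =
        ∑ i, H.MP_df7994_gt.iv q i ^ 2 := Finset.sum_congr rfl fun i _ => by ring
    rwa [h2]
  refine ⟨H.MP_df7994_gt.iv q, H.MP_df7994_gt.iv q, η, hqq, hη, hηp, hcl, fun x l hl m hm => ?_⟩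
  have hj : ∀ j, η x j + l * H.MP_df7994_gt.contr α (H.MP_df7994_gt.iv q) x j =
      m * H.MP_df7994_gt.iv q j := fun j => congrFun hm j
  have h1 : m * ∑ j, H.MP_df7994_gt.iv q j * H.MP_df7994_gt.iv q j =
      ∑ j, η x j * H.MP_df7994_gt.iv q j +
        l * ∑ j, H.MP_df7994_gt.contr α (H.MP_df7994_gt.iv q) x j * H.MP_df7994_gt.iv q j := by
    rw [Finset.mul_sum, Finset.mul_sum, ← Finset.sum_add_distrib]
    refine Finset.sum_congr rfl fun j _ => ?_
    linear_combination -(H.MP_df7994_gt.iv q j) * hj j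
  rw [hηq, H.MP_df7994_gt.contr_orth hα.skew, mul_zero, add_zero] at h1
  have hm0 : m = 0 := (mul_eq_zero.1 h1).resolve_right hqq
  have h2 : ∑ j, η x j * (J x *ᵥ H.MP_df7994_gt.iv q) j +
      l * ∑ j, H.MP_df7994_gt.contr α (H.MP_df7994_gt.iv q) x j *
        (J x *ᵥ H.MP_df7994_gt.iv q) j = 0 := by
    rw [Finset.mul_sum, ← Finset.sum_add_distrib]
    refine Finset.sum_eq_zero fun j _ => ?_
    have := hj j
    rw [hm0, zero_mul] at this
    linear_combination ((J x *ᵥ H.MP_df7994_gt.iv q) j) * this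
  have h3 := hηY x
  have h4 := mul_nonneg hl (hpos x).le
  linarith

/-- A form with a closed companion is homotopic to the constant form of the same sign. -/
theorem hom_ref_of_companion {α : (Fin 4 → ℝ) → Matrix (Fin 4) (Fin 4) ℝ}
    (hα : IsSymplectic α) (h : HasClosedCompanion α) {s : ℝ} (hs : s = 1 ∨ s = -1)
    (hpf : ∀ x, 0 < s * pfaffian (α x)) :
    H.MP_df7994_gt.Hom α (H.MP_df7994_gt.ref s) := by
  obtain ⟨v, u, η, huv, hη, hηp, hcl, hne⟩ := h
  have hc : Continuous α := continuous_matrix fun i j => (hα.smooth i j).continuous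
  refine H.MP_df7994_gt.hom_ref hs hc hα.skew hα.periodic hα.nondeg hpf v u huv η hη hηp hcl
    fun x l hl m => ?_
  by_contra hcon
  push Not at hcon
  exact hne x l hl m (funext hcon)

theorem companion_of_symmetry {α : (Fin 4 → ℝ) → Matrix (Fin 4) (Fin 4) ℝ}
    (hα : IsSymplectic α) (h : HasInfiniteSymmetry α) : HasClosedCompanion α := by
  rcases h with h | ⟨J, hJ, h⟩
  · exact companion_of_invariant hα (invariant_of_infinitelyMany hα h)
  · exact companion_of_tame hα hJ h

/-- **Symplectic forms with infinitely many affine symmetries.** Two symplectic forms on the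
four-torus inducing the same orientation are homotopic through nondegenerate 2-forms if each of
them is preserved by infinitely many affine automorphisms of the torus, or tames an almost complex
structure preserved by infinitely many affine automorphisms. -/
theorem result (α β : (Fin 4 → ℝ) → Matrix (Fin 4) (Fin 4) ℝ)
    (hα : IsSymplectic α) (hβ : IsSymplectic β)
    (hpf : ∀ x, 0 < pfaffian (α x) * pfaffian (β x))
    (hα' : HasInfiniteSymmetry α) (hβ' : HasInfiniteSymmetry β) :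
    ∃ H : ℝ → (Fin 4 → ℝ) → Matrix (Fin 4) (Fin 4) ℝ,
      Continuous (fun p : ℝ × (Fin 4 → ℝ) => H p.1 p.2) ∧
      H 0 = α ∧ H 1 = β ∧
      (∀ t ∈ Set.Icc (0 : ℝ) 1, ∀ x i j, H t x i j = - H t x j i) ∧
      (∀ t ∈ Set.Icc (0 : ℝ) 1, ∀ x (v : Fin 4 → ℤ),
        H t (x + (fun m => ((v m : ℤ) : ℝ))) = H t x) ∧
      (∀ t ∈ Set.Icc (0 : ℝ) 1, ∀ x, (H t x).det ≠ 0) := by
  have tα : HasClosedCompanion α := companion_of_symmetry hα hα'
  have tβ : HasClosedCompanion β := companion_of_symmetry hβ hβ'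
  have hcα : Continuous fun x => pfaffian (α x) := by
    have he : ∀ i j, Continuous fun x => α x i j := fun i j => (hα.smooth i j).continuous
    unfold pfaffian
    exact (((he 0 1).mul (he 2 3)).sub ((he 0 2).mul (he 1 3))).add ((he 0 3).mul (he 1 2))
  have hne : ∀ x, pfaffian (α x) ≠ 0 := fun x h => by
    have := hpf x
    rw [h, zero_mul] at this
    exact lt_irrefl _ this
  obtain ⟨s, hs, hsα⟩ : ∃ s : ℝ, (s = 1 ∨ s = -1) ∧ ∀ x, 0 < s * pfaffian (α x) := by
    rcases lt_or_gt_of_ne (hne 0) with h0 | h0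
    · refine ⟨-1, Or.inr rfl, fun x => ?_⟩
      by_contra hx
      have h1 : 0 < pfaffian (α x) := lt_of_le_of_ne (by linarith) (hne x).symm
      obtain ⟨z, hz⟩ := mem_range_of_exists_le_of_exists_ge hcα ⟨0, h0.le⟩ ⟨x, h1.le⟩
      exact hne z hz
    · refine ⟨1, Or.inl rfl, fun x => ?_⟩
      by_contra hx
      have h1 : pfaffian (α x) < 0 := lt_of_le_of_ne (by linarith) (hne x)
      obtain ⟨z, hz⟩ := mem_range_of_exists_le_of_exists_ge hcα ⟨x, h1.le⟩ ⟨0, h0.le⟩
      exact hne z hz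
  have hsβ : ∀ x, 0 < s * pfaffian (β x) := by
    intro x
    have h1 := hsα x
    have h2 := hpf x
    by_contra h3
    have h4 : s * pfaffian (β x) ≤ 0 := not_lt.1 h3
    have h5 : (s * pfaffian (α x)) * (s * pfaffian (β x)) ≤ 0 := mul_nonpos_of_nonneg_of_nonpos
      h1.le h4
    have hss : s * s = 1 := by rcases hs with rfl | rfl <;> norm_num
    have h6 : (s * pfaffian (α x)) * (s * pfaffian (β x)) =
        pfaffian (α x) * pfaffian (β x) := by
      linear_combination (pfaffian (α x) * pfaffian (β x)) * hss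
    linarith
  exact (hom_ref_of_companion hα tα hs hsα).trans (hom_ref_of_companion hβ tβ hs hsβ).symm

end Pool.Agent.Results.MP_df7994_gt.AffineSymmetries
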