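import Pool.Agent.H.MP_df7994_gt.Main

/-!
# Symplectic forms on the four-torus with a linear direction (MP_df7994_gt)

2-forms on `ℝ⁴/ℤ⁴` are `ℤ⁴`-periodic skew-symmetric `4 × 4` matrix functions on `ℝ⁴`.
-/

set_option autoImplicit false

namespace Pool.Agent.Results.MP_df7994_gt.LinearDirection

open Set Topology

/-- A symplectic form on the four-torus: smooth, skew, periodic, closed, nondegenerate. -/
structure IsSymplectic (α : (Fin 4 → ℝ) → Matrix (Fin 4) (Fin 4) ℝ) : Prop where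
  smooth : ∀ i j, ContDiff ℝ ((⊤ : ℕ∞) : WithTop ℕ∞) (fun x => α x i j)
  skew : ∀ x i j, α x i j = - α x j i
  periodic : ∀ x (v : Fin 4 → ℤ), α (x + (fun m => ((v m : ℤ) : ℝ))) = α x
  closed : ∀ x i j k,
    fderiv ℝ (fun y => α y j k) x (Pi.single i 1)
      + fderiv ℝ (fun y => α y k i) x (Pi.single j 1)
      + fderiv ℝ (fun y => α y i j) x (Pi.single k 1) = 0
  nondeg : ∀ x, (α x).det ≠ 0

/-- The Pfaffian of a skew `4 × 4` matrix: `α ∧ α = 2 Pf(α) dx₀∧dx₁∧dx₂∧dx₃`. -/
def pfaffian (A : Matrix (Fin 4) (Fin 4) ℝ) : ℝ :=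
  A 0 1 * A 2 3 - A 0 2 * A 1 3 + A 0 3 * A 1 2

/-- The contraction `ι_v A` of a 2-form with a vector. -/
def contraction (v : Fin 4 → ℝ) (A : Matrix (Fin 4) (Fin 4) ℝ) : Fin 4 → ℝ :=
  fun j => ∑ i, v i * A i j

/-- `α` is invariant under all translations in some direction `v ≠ 0`. -/
def HasInvariantDirection (α : (Fin 4 → ℝ) → Matrix (Fin 4) (Fin 4) ℝ) : Prop :=
  ∃ v : Fin 4 → ℝ, v ≠ 0 ∧ ∀ x (t : ℝ), α (x + t • v) = α x

/-- There are a constant vector `v`, a constant 1-form `u` with `u(v) ≠ 0` and a smooth periodic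
closed 1-form `η` such that at no point a form `η + l ι_v α` with `l ≥ 0` is a multiple of `u`. -/
def HasClosedCompanion (α : (Fin 4 → ℝ) → Matrix (Fin 4) (Fin 4) ℝ) : Prop :=
  ∃ (v u : Fin 4 → ℝ) (η : (Fin 4 → ℝ) → Fin 4 → ℝ),
    ∑ i, u i * v i ≠ 0 ∧
    (∀ i, ContDiff ℝ ((⊤ : ℕ∞) : WithTop ℕ∞) (fun x => η x i)) ∧
    (∀ x (z : Fin 4 → ℤ), η (x + (fun m => ((z m : ℤ) : ℝ))) = η x) ∧
    (∀ x i j, fderiv ℝ (fun y => η y j) x (Pi.single i 1) =
      fderiv ℝ (fun y => η y i) x (Pi.single j 1)) ∧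
    ∀ x (l : ℝ), 0 ≤ l → ∀ m : ℝ, η x + l • contraction v (α x) ≠ m • u

/-- A symplectic form with an invariant direction has a closed companion: `u = v` and `η = ι_v α`. -/
theorem companion_of_invariant {α : (Fin 4 → ℝ) → Matrix (Fin 4) (Fin 4) ℝ}
    (hα : IsSymplectic α) (h : HasInvariantDirection α) : HasClosedCompanion α := by
  obtain ⟨v, hv0, hv⟩ := h
  refine ⟨v, v, H.MP_df7994_gt.contr α v, ?_, fun j => ?_, fun x z => ?_, fun x i j => ?_,
    fun x l hl m h => ?_⟩
  · have h1 := (H.MP_df7994_gt.sq_pos_of_ne hv0).ne'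
    have h2 : ∑ i, v i * v i = ∑ i, v i ^ 2 := Finset.sum_congr rfl fun i _ => by ring
    rwa [h2]
  · exact ContDiff.sum fun i _ => contDiff_const.mul (hα.smooth i j)
  · unfold H.MP_df7994_gt.contr
    rw [hα.periodic x z]
  · exact H.MP_df7994_gt.contr_closed hα.smooth hα.skew hα.closed hv x i j
  · have h0 : ∀ j, (1 + l) * H.MP_df7994_gt.contr α v x j = m * v j := by
      intro j
      have h1 : H.MP_df7994_gt.contr α v x j + l * H.MP_df7994_gt.contr α v x j = m * v j :=
        congrFun h j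
      linarith
    have h1 := H.MP_df7994_gt.contr_orth hα.skew v x
    have h2 : m * ∑ j, v j ^ 2 = (1 + l) * ∑ j, H.MP_df7994_gt.contr α v x j * v j := by
      rw [Finset.mul_sum, Finset.mul_sum]
      refine Finset.sum_congr rfl fun j _ => ?_
      linear_combination -(v j) * h0 j
    rw [h1, mul_zero] at h2
    have h3 : m = 0 := (mul_eq_zero.1 h2).resolve_right (H.MP_df7994_gt.sq_pos_of_ne hv0).ne'
    apply H.MP_df7994_gt.contr_ne hα.skew hα.nondeg hv0 x
    funext j
    have h4 := h0 j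
    rw [h3, zero_mul] at h4
    exact (mul_eq_zero.1 h4).resolve_left (by linarith)

/-- If `w ∧ η ∧ α` vanishes nowhere, for a constant `w` and a closed `η`, then `α` has a closed
companion: `u = v = w` and `η` or `-η`. For constant `η` this means that `α` is nondegenerate on
the constant plane field `w = η = 0`. -/
theorem companion_of_transverse {α : (Fin 4 → ℝ) → Matrix (Fin 4) (Fin 4) ℝ}
    (hα : IsSymplectic α) (w : Fin 4 → ℝ) (η : (Fin 4 → ℝ) → Fin 4 → ℝ)
    (hη : ∀ i, ContDiff ℝ ((⊤ : ℕ∞) : WithTop ℕ∞) (fun x => η x i))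
    (hηp : ∀ x (z : Fin 4 → ℤ), η (x + (fun m => ((z m : ℤ) : ℝ))) = η x)
    (hcl : ∀ x i j, fderiv ℝ (fun y => η y j) x (Pi.single i 1) =
      fderiv ℝ (fun y => η y i) x (Pi.single j 1))
    (hne : ∀ x, H.MP_df7994_gt.wedge w (η x) (α x) ≠ 0) : HasClosedCompanion α := by
  have hw : w ≠ 0 := by
    intro h
    apply hne 0
    rw [h]
    simp [H.MP_df7994_gt.wedge]
  have hww : ∑ i, w i * w i ≠ 0 := by
    have h1 := (H.MP_df7994_gt.sq_pos_of_ne hw).ne'
    have h2 : ∑ i, w i * w i = ∑ i, w i ^ 2 := Finset.sum_congr rfl fun i _ => by ring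
    rwa [h2]
  have he : ∀ i j, Continuous fun x => α x i j := fun i j => (hα.smooth i j).continuous
  have hηi : ∀ i, Continuous fun x => η x i := fun i => (hη i).continuous
  have hpf : ∀ x, H.MP_df7994_gt.pf (α x) ≠ 0 := fun x h0 => by
    have := hα.nondeg x
    rw [H.MP_df7994_gt.det_skew (hα.skew x), h0] at this
    norm_num at this
  have hcont : Continuous fun x => H.MP_df7994_gt.wedge w (η x) (α x) *
      H.MP_df7994_gt.pf (α x) := by
    unfold H.MP_df7994_gt.wedge H.MP_df7994_gt.pf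
    have a0 := hηi 0
    have a1 := hηi 1
    have a2 := hηi 2
    have a3 := hηi 3
    have b01 := he 0 1
    have b02 := he 0 2
    have b03 := he 0 3
    have b12 := he 1 2
    have b13 := he 1 3
    have b23 := he 2 3
    fun_prop
  have hne' : ∀ x, H.MP_df7994_gt.wedge w (η x) (α x) * H.MP_df7994_gt.pf (α x) ≠ 0 := fun x =>
    mul_ne_zero (hne x) (hpf x)
  rcases lt_or_gt_of_ne (hne' 0) with h0 | h0
  · have hneg : ∀ x, H.MP_df7994_gt.wedge w (η x) (α x) * H.MP_df7994_gt.pf (α x) < 0 := by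
      intro x
      by_contra hx
      obtain ⟨z, hz⟩ := mem_range_of_exists_le_of_exists_ge hcont ⟨0, h0.le⟩ ⟨x, not_lt.1 hx⟩
      exact hne' z hz
    refine ⟨w, w, fun x => -(η x), hww, fun i => (hη i).neg, fun x z => ?_, fun x i j => ?_,
      fun x l hl m h => ?_⟩
    · show -(η (x + (fun m => ((z m : ℤ) : ℝ)))) = -(η x)
      rw [hηp x z]
    · have h1 : ∀ k, (fun y => (-(η y)) k) = fun y => -(η y k) := fun k => rfl
      rw [h1 j, h1 i, fderiv_fun_neg, fderiv_fun_neg]
      show -(fderiv ℝ (fun y => η y j) x (Pi.single i 1)) =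
        -(fderiv ℝ (fun y => η y i) x (Pi.single j 1))
      rw [hcl x i j]
    · have h2 : 0 < H.MP_df7994_gt.wedge w (-(η x)) (α x) * H.MP_df7994_gt.pf (α x) := by
        have h3 : H.MP_df7994_gt.wedge w (-(η x)) (α x) = -H.MP_df7994_gt.wedge w (η x) (α x) := by
          simp only [H.MP_df7994_gt.wedge, Pi.neg_apply]
          ring
        rw [h3]
        linarith [hneg x]
      obtain ⟨j, hj⟩ := H.MP_df7994_gt.no_multiple (hα.skew x) h2 hl m
      exact hj (congrFun h j)
  · have hpos : ∀ x, 0 < H.MP_df7994_gt.wedge w (η x) (α x) * H.MP_df7994_gt.pf (α x) := by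
      intro x
      by_contra hx
      obtain ⟨z, hz⟩ := mem_range_of_exists_le_of_exists_ge hcont ⟨x, not_lt.1 hx⟩ ⟨0, h0.le⟩
      exact hne' z hz
    refine ⟨w, w, η, hww, hη, hηp, hcl, fun x l hl m h => ?_⟩
    obtain ⟨j, hj⟩ := H.MP_df7994_gt.no_multiple (hα.skew x) (hpos x) hl m
    exact hj (congrFun h j)

/-- A form with a closed companion is homotopic to the constant form of the same sign. -/
theorem hom_ref_of_companion {α : (Fin 4 → ℝ) → Matrix (Fin 4) (Fin 4) ℝ}
    (hα : IsSymplectic α) (h : HasClosedCompanion α) {s : ℝ} (hs : s = 1 ∨ s = -1)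
    (hpf : ∀ x, 0 < s * pfaffian (α x)) :
    H.MP_df7994_gt.Hom α (H.MP_df7994_gt.ref s) := by
  obtain ⟨v, u, η, huv, hη, hηp, hcl, hne⟩ := h
  have hc : Continuous α := continuous_matrix fun i j => (hα.smooth i j).continuous
  refine H.MP_df7994_gt.hom_ref hs hc hα.skew hα.periodic hα.nondeg hpf v u huv η hη hηp hcl
    fun x l hl m => ?_
  by_contra hcon
  push Not at hcon
  exact hne x l hl m (funext hcon)

/-- **Symplectic forms with a linear direction.** Two symplectic forms on the four-torus inducing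
the same orientation, each of which has an invariant direction or a closed companion, are homotopic
through nondegenerate 2-forms. -/
theorem result (α β : (Fin 4 → ℝ) → Matrix (Fin 4) (Fin 4) ℝ)
    (hα : IsSymplectic α) (hβ : IsSymplectic β)
    (hpf : ∀ x, 0 < pfaffian (α x) * pfaffian (β x))
    (hα' : HasInvariantDirection α ∨ HasClosedCompanion α)
    (hβ' : HasInvariantDirection β ∨ HasClosedCompanion β) :
    ∃ H : ℝ → (Fin 4 → ℝ) → Matrix (Fin 4) (Fin 4) ℝ,
      Continuous (fun p : ℝ × (Fin 4 → ℝ) => H p.1 p.2) ∧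
      H 0 = α ∧ H 1 = β ∧
      (∀ t ∈ Set.Icc (0 : ℝ) 1, ∀ x i j, H t x i j = - H t x j i) ∧
      (∀ t ∈ Set.Icc (0 : ℝ) 1, ∀ x (v : Fin 4 → ℤ),
        H t (x + (fun m => ((v m : ℤ) : ℝ))) = H t x) ∧
      (∀ t ∈ Set.Icc (0 : ℝ) 1, ∀ x, (H t x).det ≠ 0) := by
  have tα : HasClosedCompanion α := hα'.elim (companion_of_invariant hα) id
  have tβ : HasClosedCompanion β := hβ'.elim (companion_of_invariant hβ) id
  have hcα : Continuous fun x => pfaffian (α x) := by
    have he : ∀ i j, Continuous fun x => α x i j := fun i j => (hα.smooth i j).continuous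
    unfold pfaffian
    exact (((he 0 1).mul (he 2 3)).sub ((he 0 2).mul (he 1 3))).add ((he 0 3).mul (he 1 2))
  have hne : ∀ x, pfaffian (α x) ≠ 0 := fun x h => by
    have := hpf x
    rw [h, zero_mul] at this
    exact lt_irrefl _ this
  obtain ⟨s, hs, hsα⟩ : ∃ s : ℝ, (s = 1 ∨ s = -1) ∧ ∀ x, 0 < s * pfaffian (α x) := by
    rcases lt_or_gt_of_ne (hne 0) with h0 | h0
    · refine ⟨-1, Or.inr rfl, fun x => ?_⟩
      by_contra hx
      have h1 : 0 < pfaffian (α x) := lt_of_le_of_ne (by linarith) (hne x).symm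
      obtain ⟨z, hz⟩ := mem_range_of_exists_le_of_exists_ge hcα ⟨0, h0.le⟩ ⟨x, h1.le⟩
      exact hne z hz
    · refine ⟨1, Or.inl rfl, fun x => ?_⟩
      by_contra hx
      have h1 : pfaffian (α x) < 0 := lt_of_le_of_ne (by linarith) (hne x)
      obtain ⟨z, hz⟩ := mem_range_of_exists_le_of_exists_ge hcα ⟨x, h1.le⟩ ⟨0, h0.le⟩
      exact hne z hz
  have hsβ : ∀ x, 0 < s * pfaffian (β x) := by
    intro x
    have h1 := hsα x
    have h2 := hpf x
    by_contra h3
    have h4 : s * pfaffian (β x) ≤ 0 := not_lt.1 h3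
    have h5 : (s * pfaffian (α x)) * (s * pfaffian (β x)) ≤ 0 := mul_nonpos_of_nonneg_of_nonpos
      h1.le h4
    have hss : s * s = 1 := by rcases hs with rfl | rfl <;> norm_num
    have h6 : (s * pfaffian (α x)) * (s * pfaffian (β x)) =
        pfaffian (α x) * pfaffian (β x) := by
      linear_combination (pfaffian (α x) * pfaffian (β x)) * hss
    linarith
  exact (hom_ref_of_companion hα tα hs hsα).trans (hom_ref_of_companion hβ tβ hs hsβ).symm

end Pool.Agent.Results.MP_df7994_gt.LinearDirection
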