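import Mathlib
import Pool.Agent.H.MP_df7994_gt.PI.End

/-!
# Pullbacks of 2-forms on the four-torus by diffeomorphisms pseudo-isotopic to affine ones

2-forms on `ℝ⁴/ℤ⁴` are `ℤ⁴`-periodic skew-symmetric `4 × 4` matrix functions on `ℝ⁴`.
-/

set_option autoImplicit false

namespace Pool.Agent.Results.MP_df7994_gt.PseudoIsotopy

open Set Topology Matrix

/-- A continuous nondegenerate 2-form on the four-torus. -/
structure IsNondegenerate (α : (Fin 4 → ℝ) → Matrix (Fin 4) (Fin 4) ℝ) : Prop where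
  continuous : Continuous α
  skew : ∀ x i j, α x i j = - α x j i
  periodic : ∀ x (v : Fin 4 → ℤ), α (x + (fun m => ((v m : ℤ) : ℝ))) = α x
  nondeg : ∀ x, (α x).det ≠ 0

/-- The Pfaffian of a skew `4 × 4` matrix: `α ∧ α = 2 Pf(α) dx₀∧dx₁∧dx₂∧dx₃`. -/
def pfaffian (A : Matrix (Fin 4) (Fin 4) ℝ) : ℝ :=
  A 0 1 * A 2 3 - A 0 2 * A 1 3 + A 0 3 * A 1 2

/-- Homotopic through nondegenerate 2-forms. -/
def Homotopic (α β : (Fin 4 → ℝ) → Matrix (Fin 4) (Fin 4) ℝ) : Prop :=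
  ∃ H : ℝ → (Fin 4 → ℝ) → Matrix (Fin 4) (Fin 4) ℝ,
    Continuous (fun p : ℝ × (Fin 4 → ℝ) => H p.1 p.2) ∧ H 0 = α ∧ H 1 = β ∧
    (∀ t ∈ Icc (0 : ℝ) 1, ∀ x i j, H t x i j = - H t x j i) ∧
    (∀ t ∈ Icc (0 : ℝ) 1, ∀ x (v : Fin 4 → ℤ),
      H t (x + (fun m => ((v m : ℤ) : ℝ))) = H t x) ∧
    (∀ t ∈ Icc (0 : ℝ) 1, ∀ x, (H t x).det ≠ 0)

/-- An integer matrix as a real matrix. -/
def real (M : Matrix (Fin 4) (Fin 4) ℤ) : Matrix (Fin 4) (Fin 4) ℝ := M.map fun z : ℤ => (z : ℝ)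

/-- The lift `G` to `ℝ⁴ × [0,1]` (extended to `ℝ⁴ × ℝ`) of a pseudo-isotopy of the four-torus from
`x ↦ M x + b` to `g`: a `C¹` map with `G(x + z, t) = G(x, t) + (M z, 0)` for integer vectors `z`,
injective and immersive on `ℝ⁴ × [0,1]`, which maps `ℝ⁴ × (0,1)` into itself and has the form
`(M x + b, 0)` for `t = 0` and `(g(x), 1)` for `t = 1`. -/
structure IsPseudoIsotopy (M : Matrix (Fin 4) (Fin 4) ℤ) (b : Fin 4 → ℝ)
    (g : (Fin 4 → ℝ) → Fin 4 → ℝ) (G : (Fin 4 → ℝ) × ℝ → (Fin 4 → ℝ) × ℝ) : Prop where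
  smooth : ContDiff ℝ 1 G
  equivariant : ∀ (x : Fin 4 → ℝ) (t : ℝ) (z : Fin 4 → ℤ),
    G (x + (fun m => ((z m : ℤ) : ℝ)), t) = G (x, t) + ((fun m => ((M *ᵥ z) m : ℝ)), 0)
  immersive : ∀ (x : Fin 4 → ℝ) (t : ℝ), t ∈ Icc (0 : ℝ) 1 →
    Function.Bijective (fderiv ℝ G (x, t))
  injective : ∀ (x x' : Fin 4 → ℝ) (t t' : ℝ), t ∈ Icc (0 : ℝ) 1 → t' ∈ Icc (0 : ℝ) 1 →
    G (x, t) = G (x', t') → x = x' ∧ t = t'
  inside : ∀ (x : Fin 4 → ℝ) (t : ℝ), t ∈ Ioo (0 : ℝ) 1 → (G (x, t)).2 ∈ Ioo (0 : ℝ) 1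
  bottom : ∀ x : Fin 4 → ℝ, G (x, 0) = (real M *ᵥ x + b, 0)
  top : ∀ x : Fin 4 → ℝ, G (x, 1) = (g x, 1)

/-- The pullback `g^* α`. -/
noncomputable def pullback (g : (Fin 4 → ℝ) → Fin 4 → ℝ)
    (α : (Fin 4 → ℝ) → Matrix (Fin 4) (Fin 4) ℝ) (x : Fin 4 → ℝ) : Matrix (Fin 4) (Fin 4) ℝ :=
  (Matrix.of fun i j => fderiv ℝ g x (Pi.single j 1) i)ᵀ * α (g x) *
    (Matrix.of fun i j => fderiv ℝ g x (Pi.single j 1) i)

/-- `α = g^* β`, where `g` is pseudo-isotopic to an affine map and `β` is a nondegenerate 2-form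
homotopic to a constant one through nondegenerate 2-forms. -/
def IsStandardPullback (α : (Fin 4 → ℝ) → Matrix (Fin 4) (Fin 4) ℝ) : Prop :=
  ∃ (M : Matrix (Fin 4) (Fin 4) ℤ) (b : Fin 4 → ℝ) (g : (Fin 4 → ℝ) → Fin 4 → ℝ)
    (G : (Fin 4 → ℝ) × ℝ → (Fin 4 → ℝ) × ℝ) (β : (Fin 4 → ℝ) → Matrix (Fin 4) (Fin 4) ℝ)
    (c : Matrix (Fin 4) (Fin 4) ℝ), IsPseudoIsotopy M b g G ∧ IsNondegenerate β ∧
      Homotopic β (fun _ => c) ∧ α = pullback g β

theorem psIso_of {M : Matrix (Fin 4) (Fin 4) ℤ} {b : Fin 4 → ℝ} {g : (Fin 4 → ℝ) → Fin 4 → ℝ}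
    {G : (Fin 4 → ℝ) × ℝ → (Fin 4 → ℝ) × ℝ} (h : IsPseudoIsotopy M b g G) :
    H.MP_df7994_gt.PI.PsIso M b g G :=
  ⟨h.smooth, h.equivariant, h.immersive, h.injective, h.inside, h.bottom, h.top⟩

theorem hom_ref_of_std {α : (Fin 4 → ℝ) → Matrix (Fin 4) (Fin 4) ℝ} (h : IsStandardPullback α)
    {s : ℝ} (hs : s = 1 ∨ s = -1) (hpf : ∀ x, 0 < s * pfaffian (α x)) :
    H.MP_df7994_gt.Hom α (H.MP_df7994_gt.ref s) := by
  obtain ⟨M, b, g, G, β, c, hG, hβ, hc, rfl⟩ := h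
  exact H.MP_df7994_gt.PI.pull_ref (psIso_of hG) hβ.continuous hβ.skew hβ.periodic hβ.nondeg hc hs
    hpf

/-- **Pseudo-isotopies.** (1) If `g` is pseudo-isotopic to `x ↦ M x + b` then `g^* α` is homotopic to
`(M x + b)^* α` for every nondegenerate 2-form `α`. (2) Two nondegenerate 2-forms which induce the same
orientation are homotopic if each of them is a pullback of a form homotopic to a constant one by a map
pseudo-isotopic to an affine one. -/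
theorem result :
    (∀ (M : Matrix (Fin 4) (Fin 4) ℤ) (b : Fin 4 → ℝ) (g : (Fin 4 → ℝ) → Fin 4 → ℝ)
      (G : (Fin 4 → ℝ) × ℝ → (Fin 4 → ℝ) × ℝ), IsPseudoIsotopy M b g G →
      ∀ α : (Fin 4 → ℝ) → Matrix (Fin 4) (Fin 4) ℝ, IsNondegenerate α →
        Homotopic (pullback g α) (pullback (fun x => real M *ᵥ x + b) α)) ∧
    ∀ α β : (Fin 4 → ℝ) → Matrix (Fin 4) (Fin 4) ℝ, IsNondegenerate α → IsNondegenerate β →
      (∀ x, 0 < pfaffian (α x) * pfaffian (β x)) → IsStandardPullback α → IsStandardPullback β →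
        Homotopic α β := by
  refine ⟨fun M b g G hG α hα => ?_, fun α β hα hβ hpf tα tβ => ?_⟩
  · have h1 := H.MP_df7994_gt.PI.pull_hom (psIso_of hG) hα.continuous hα.skew hα.periodic hα.nondeg
    have e : ∀ x, (Matrix.of fun i j =>
        fderiv ℝ (fun x : Fin 4 → ℝ => real M *ᵥ x + b) x (Pi.single j 1) i) = real M := by
      intro x
      have h2 : HasFDerivAt (fun y : Fin 4 → ℝ => real M *ᵥ y + b)
          (LinearMap.toContinuousLinearMap (Matrix.mulVecLin (real M))) x :=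
        (LinearMap.toContinuousLinearMap (Matrix.mulVecLin (real M))).hasFDerivAt.add_const b
      rw [h2.fderiv]
      ext i j
      simp
    have e2 : pullback (fun x => real M *ᵥ x + b) α = fun x =>
        (M.map (fun m : ℤ => (m : ℝ))).transpose *
        α ((M.map (fun m : ℤ => (m : ℝ))).mulVec x + b) * M.map (fun m : ℤ => (m : ℝ)) := by
      funext x
      unfold pullback
      rw [e x]
      rfl
    rw [e2]
    exact h1
  · have hne : ∀ x, H.MP_df7994_gt.pf (α x) ≠ 0 := fun x h => by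
      have h1 := hpf x
      have h2 : pfaffian (α x) = 0 := h
      rw [h2, zero_mul] at h1
      exact lt_irrefl _ h1
    obtain ⟨s, hs, hsα⟩ := H.MP_df7994_gt.SD.sign_const hα.continuous hne
    have hss : s * s = 1 := by rcases hs with rfl | rfl <;> norm_num
    have hsβ : ∀ x, 0 < s * pfaffian (β x) := by
      intro x
      have h1 : 0 < s * pfaffian (α x) := hsα x
      have h2 := hpf x
      have h3 : 0 < (s * pfaffian (α x)) * (s * pfaffian (β x)) := by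
        have : (s * pfaffian (α x)) * (s * pfaffian (β x)) =
            (s * s) * (pfaffian (α x) * pfaffian (β x)) := by ring
        rw [this, hss, one_mul]
        exact h2
      exact (mul_pos_iff_of_pos_left h1).1 h3
    exact (hom_ref_of_std tα hs hsα).trans (hom_ref_of_std tβ hs hsβ).symm

end Pool.Agent.Results.MP_df7994_gt.PseudoIsotopy
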