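import Pool.Agent.H.MP_df7994_gt.SD.PathD
import Pool.Agent.H.MP_df7994_gt.SD.Join

/-!
# Symplectic forms of small dilatation on the four-torus (MP_df7994_gt)

2-forms on `ℝ⁴/ℤ⁴` are `ℤ⁴`-periodic skew-symmetric `4 × 4` matrix functions on `ℝ⁴`.
-/

set_option autoImplicit false

namespace Pool.Agent.Results.MP_df7994_gt.SmallDilatation

open Set Topology Matrix MeasureTheory

/-- A symplectic form on the four-torus: smooth, skew, periodic, closed, nondegenerate. -/
structure IsSymplectic (α : (Fin 4 → ℝ) → Matrix (Fin 4) (Fin 4) ℝ) : Prop where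
  smooth : ∀ i j, ContDiff ℝ ((⊤ : ℕ∞) : WithTop ℕ∞) (fun x => α x i j)
  skew : ∀ x i j, α x i j = - α x j i
  periodic : ∀ x (v : Fin 4 → ℤ), α (x + (fun m => ((v m : ℤ) : ℝ))) = α x
  closed : ∀ x i j k,
    fderiv ℝ (fun y => α y j k) x (Pi.single i 1)
      + fderiv ℝ (fun y => α y k i) x (Pi.single j 1)
      + fderiv ℝ (fun y => α y i j) x (Pi.single k 1) = 0
  nondeg : ∀ x, (α x).det ≠ 0

/-- The Pfaffian of a skew `4 × 4` matrix: `α ∧ α = 2 Pf(α) dx₀∧dx₁∧dx₂∧dx₃`. -/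
def pfaffian (A : Matrix (Fin 4) (Fin 4) ℝ) : ℝ :=
  A 0 1 * A 2 3 - A 0 2 * A 1 3 + A 0 3 * A 1 2

/-- The mean of a 2-form: the constant form whose coefficients are the means of the coefficients of
`α` over the unit cube. For closed `α` it is the constant form in the cohomology class of `α`. -/
noncomputable def mean (α : (Fin 4 → ℝ) → Matrix (Fin 4) (Fin 4) ℝ) :
    Matrix (Fin 4) (Fin 4) ℝ :=
  fun i j => ∫ x in Icc (0 : Fin 4 → ℝ) 1, α x i j

/-- `α` has dilatation at most `ε` with respect to a constant inner product (the one for which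
the columns of the constant invertible matrix `A` are orthonormal): with `B = Aᵀ α(x) A` one has
`∑ B_ij² ≤ (4 + ε) |Pf B|` at every point `x`. In general `∑ B_ij² ≥ 4 |Pf B|`. If `l₁, l₂` are the
singular values of `α(x)` for this inner product then the condition is
`l₁² + l₂² ≤ (2 + ε/2) l₁ l₂`: the ratio `l₁/l₂` is close to `1`. -/
def DilatationAtMost (ε : ℝ) (α : (Fin 4 → ℝ) → Matrix (Fin 4) (Fin 4) ℝ) : Prop :=
  ∃ A : Matrix (Fin 4) (Fin 4) ℝ, A.det ≠ 0 ∧
    ∀ x, ∑ i, ∑ j, (Aᵀ * α x * A) i j ^ 2 ≤ (4 + ε) * |pfaffian (Aᵀ * α x * A)|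

/-- The coefficient of `A ∧ B` on `dx₀∧dx₁∧dx₂∧dx₃`; `wedge A A = 2 Pf A`. -/
def wedge (A B : Matrix (Fin 4) (Fin 4) ℝ) : ℝ :=
  A 0 1 * B 2 3 + A 2 3 * B 0 1 - (A 0 2 * B 1 3 + A 1 3 * B 0 2) + (A 0 3 * B 1 2 + A 1 2 * B 0 3)

/-- There is a symplectic form `β` of dilatation at most `ε` inducing the same orientation as `α`,
with `α ∧ β ≥ 0` for this orientation (`β = α` if `α` itself has dilatation at most `ε`; in general
the dilatation of `α` is not bounded). -/
def PositiveOnSmallDilatation (ε : ℝ) (α : (Fin 4 → ℝ) → Matrix (Fin 4) (Fin 4) ℝ) : Prop :=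
  ∃ β : (Fin 4 → ℝ) → Matrix (Fin 4) (Fin 4) ℝ, IsSymplectic β ∧ DilatationAtMost ε β ∧
    (∀ x, 0 < pfaffian (α x) * pfaffian (β x)) ∧ ∀ x, 0 ≤ pfaffian (α x) * wedge (α x) (β x)

theorem symp_iff {α : (Fin 4 → ℝ) → Matrix (Fin 4) (Fin 4) ℝ} :
    H.MP_df7994_gt.SD.Symp α ↔ IsSymplectic α :=
  ⟨fun h => ⟨h.sm, h.skew, h.per, h.cl, h.nd⟩,
    fun h => ⟨h.smooth, h.skew, h.periodic, h.closed, h.nondeg⟩⟩

/-- A symplectic form joined to its mean by symplectic forms is homotopic to the constant form of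
the same sign. -/
theorem hom_ref_of_path {α : (Fin 4 → ℝ) → Matrix (Fin 4) (Fin 4) ℝ}
    (h : ∃ H : ℝ → (Fin 4 → ℝ) → Matrix (Fin 4) (Fin 4) ℝ,
      Continuous (fun p : ℝ × (Fin 4 → ℝ) => H p.1 p.2) ∧ H 0 = α ∧ (H 1 = fun _ => mean α) ∧
      ∀ t ∈ Icc (0 : ℝ) 1, IsSymplectic (H t) ∧ mean (H t) = mean α)
    {s : ℝ} (hs : s = 1 ∨ s = -1) (hpf : ∀ x, 0 < s * pfaffian (α x)) :
    H.MP_df7994_gt.Hom α (H.MP_df7994_gt.ref s) := by
  obtain ⟨G, hc, h0, h1, hS⟩ := h
  have k1 : ∀ t ∈ Icc (0 : ℝ) 1, ∀ x i j, G t x i j = - G t x j i := fun t ht => (hS t ht).1.skew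
  have k2 : ∀ t ∈ Icc (0 : ℝ) 1, ∀ x, (G t x).det ≠ 0 := fun t ht => (hS t ht).1.nondeg
  have hH : H.MP_df7994_gt.Hom α (fun _ => mean α) :=
    ⟨G, hc, h0, h1, k1, fun t ht => (hS t ht).1.periodic, k2⟩
  have h2 : 0 < s * H.MP_df7994_gt.pf (G 1 0) :=
    H.MP_df7994_gt.SD.sign_path hc k1 k2 0 (by rw [h0]; exact hpf 0)
  have h3 : ∀ i j, mean α i j = - mean α j i := fun i j => by
    have := k1 1 ⟨zero_le_one, le_rfl⟩ 0 i j
    rw [h1] at this
    exact this
  rw [h1] at h2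
  exact hH.trans (H.MP_df7994_gt.SD.const_ref h3 hs h2)

/-- The segment between two symplectic forms inducing the same orientation with `α ∧ β ≥ 0`. -/
theorem hom_of_wedge {α β : (Fin 4 → ℝ) → Matrix (Fin 4) (Fin 4) ℝ} (hα : IsSymplectic α)
    (hβ : IsSymplectic β) (hpf : ∀ x, 0 < pfaffian (α x) * pfaffian (β x))
    (hw : ∀ x, 0 ≤ pfaffian (α x) * wedge (α x) (β x)) : H.MP_df7994_gt.Hom α β := by
  have hcα : Continuous α := continuous_matrix fun i j => (hα.smooth i j).continuous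
  have hcβ : Continuous β := continuous_matrix fun i j => (hβ.smooth i j).continuous
  have hsk : ∀ (t : ℝ) x i j, ((1 - t) • α x + t • β x) i j = - ((1 - t) • α x + t • β x) j i := by
    intro t x i j
    have h1 := hα.skew x i j
    have h2 := hβ.skew x i j
    simp only [Matrix.add_apply, Matrix.smul_apply, smul_eq_mul]
    rw [h1, h2]
    ring
  refine ⟨fun t x => (1 - t) • α x + t • β x, ?_, ?_, ?_, fun t _ x i j => hsk t x i j, ?_, ?_⟩
  · exact ((continuous_const.sub continuous_fst).smul (hcα.comp continuous_snd)).add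
      (continuous_fst.smul (hcβ.comp continuous_snd))
  · funext x
    simp
  · funext x
    simp
  · intro t _ x v
    show (1 - t) • α (x + (fun m => ((v m : ℤ) : ℝ))) + t • β (x + (fun m => ((v m : ℤ) : ℝ))) =
      (1 - t) • α x + t • β x
    rw [hα.periodic x v, hβ.periodic x v]
  · intro t ht x
    show ((1 - t) • α x + t • β x).det ≠ 0
    rw [H.MP_df7994_gt.det_skew (hsk t x)]
    refine pow_ne_zero 2 fun h0 => ?_
    have h1 : pfaffian (α x) * H.MP_df7994_gt.pf ((1 - t) • α x + t • β x) =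
        (1 - t) ^ 2 * (pfaffian (α x) * pfaffian (α x)) +
          t * (1 - t) * (pfaffian (α x) * wedge (α x) (β x)) +
          t ^ 2 * (pfaffian (α x) * pfaffian (β x)) := by
      simp only [H.MP_df7994_gt.pf, pfaffian, wedge, Matrix.add_apply, Matrix.smul_apply,
        smul_eq_mul]
      ring
    have h2 : 0 < pfaffian (α x) * pfaffian (α x) := by
      refine mul_self_pos.2 fun h => ?_
      have := hpf x
      rw [h, zero_mul] at this
      exact lt_irrefl _ this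
    have h3 : 0 ≤ t * (1 - t) * (pfaffian (α x) * wedge (α x) (β x)) :=
      mul_nonneg (mul_nonneg ht.1 (by linarith [ht.2])) (hw x)
    have h4 : 0 < (1 - t) ^ 2 * (pfaffian (α x) * pfaffian (α x)) +
        t ^ 2 * (pfaffian (α x) * pfaffian (β x)) := by
      rcases eq_or_lt_of_le ht.1 with h | h
      · have h5 : 0 ≤ t ^ 2 * (pfaffian (α x) * pfaffian (β x)) := mul_nonneg (sq_nonneg t) (hpf x).le
        have h6 : 0 < (1 - t) ^ 2 * (pfaffian (α x) * pfaffian (α x)) := by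
          rw [← h]
          simpa using h2
        linarith
      · have h5 : 0 < t ^ 2 * (pfaffian (α x) * pfaffian (β x)) := mul_pos (pow_pos h 2) (hpf x)
        have h6 : 0 ≤ (1 - t) ^ 2 * (pfaffian (α x) * pfaffian (α x)) :=
          mul_nonneg (sq_nonneg _) h2.le
        linarith
    rw [h0, mul_zero] at h1
    linarith

/-- **Symplectic forms of small dilatation.** There is an absolute constant `ε > 0` such that every
symplectic form on the four-torus of dilatation at most `ε` with respect to some constant inner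
product can be joined to its mean by a path of symplectic forms with the same mean; and two
symplectic forms inducing the same orientation, each of which is nonnegative on a symplectic form of
dilatation at most `ε` (for instance on itself), are homotopic through nondegenerate 2-forms. -/
theorem result : ∃ ε : ℝ, 0 < ε ∧
    (∀ α : (Fin 4 → ℝ) → Matrix (Fin 4) (Fin 4) ℝ, IsSymplectic α → DilatationAtMost ε α →
      ∃ H : ℝ → (Fin 4 → ℝ) → Matrix (Fin 4) (Fin 4) ℝ,
        Continuous (fun p : ℝ × (Fin 4 → ℝ) => H p.1 p.2) ∧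
        H 0 = α ∧ (H 1 = fun _ => mean α) ∧
        ∀ t ∈ Set.Icc (0 : ℝ) 1, IsSymplectic (H t) ∧ mean (H t) = mean α) ∧
    (∀ α β : (Fin 4 → ℝ) → Matrix (Fin 4) (Fin 4) ℝ, IsSymplectic α → IsSymplectic β →
      (∀ x, 0 < pfaffian (α x) * pfaffian (β x)) →
      PositiveOnSmallDilatation ε α → PositiveOnSmallDilatation ε β →
      ∃ H : ℝ → (Fin 4 → ℝ) → Matrix (Fin 4) (Fin 4) ℝ,
        Continuous (fun p : ℝ × (Fin 4 → ℝ) => H p.1 p.2) ∧
        H 0 = α ∧ H 1 = β ∧
        (∀ t ∈ Set.Icc (0 : ℝ) 1, ∀ x i j, H t x i j = - H t x j i) ∧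
        (∀ t ∈ Set.Icc (0 : ℝ) 1, ∀ x (v : Fin 4 → ℤ),
          H t (x + (fun m => ((v m : ℤ) : ℝ))) = H t x) ∧
        (∀ t ∈ Set.Icc (0 : ℝ) 1, ∀ x, (H t x).det ≠ 0)) := by
  obtain ⟨ε, hε, hpath⟩ := H.MP_df7994_gt.SD.exists_path
  have key : ∀ α : (Fin 4 → ℝ) → Matrix (Fin 4) (Fin 4) ℝ, IsSymplectic α → DilatationAtMost ε α →
      ∃ H : ℝ → (Fin 4 → ℝ) → Matrix (Fin 4) (Fin 4) ℝ,
        Continuous (fun p : ℝ × (Fin 4 → ℝ) => H p.1 p.2) ∧
        H 0 = α ∧ (H 1 = fun _ => mean α) ∧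
        ∀ t ∈ Set.Icc (0 : ℝ) 1, IsSymplectic (H t) ∧ mean (H t) = mean α := by
    intro α hα hd
    obtain ⟨G, hc, h0, h1, hS⟩ := hpath α (symp_iff.2 hα) hd
    exact ⟨G, hc, h0, h1, fun t ht => ⟨symp_iff.1 (hS t ht).1, (hS t ht).2⟩⟩
  have sgn : ∀ (α β : (Fin 4 → ℝ) → Matrix (Fin 4) (Fin 4) ℝ) (s : ℝ), (s = 1 ∨ s = -1) →
      (∀ x, 0 < s * pfaffian (α x)) → (∀ x, 0 < pfaffian (α x) * pfaffian (β x)) →
      ∀ x, 0 < s * pfaffian (β x) := by
    intro α β s hs hsα hpf x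
    have h1 : 0 < s * pfaffian (α x) := hsα x
    have h2 := hpf x
    by_contra h3
    have h4 : s * pfaffian (β x) ≤ 0 := not_lt.1 h3
    have h5 : (s * pfaffian (α x)) * (s * pfaffian (β x)) ≤ 0 := mul_nonpos_of_nonneg_of_nonpos
      h1.le h4
    have hss : s * s = 1 := by rcases hs with rfl | rfl <;> norm_num
    have h6 : (s * pfaffian (α x)) * (s * pfaffian (β x)) =
        pfaffian (α x) * pfaffian (β x) := by
      linear_combination (pfaffian (α x) * pfaffian (β x)) * hss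
    linarith
  have toref : ∀ (α : (Fin 4 → ℝ) → Matrix (Fin 4) (Fin 4) ℝ) (s : ℝ), IsSymplectic α →
      (s = 1 ∨ s = -1) → (∀ x, 0 < s * pfaffian (α x)) → PositiveOnSmallDilatation ε α →
      H.MP_df7994_gt.Hom α (H.MP_df7994_gt.ref s) := by
    intro α s hα hs hsα hp
    obtain ⟨β, hβ, hdβ, hpf, hw⟩ := hp
    exact (hom_of_wedge hα hβ hpf hw).trans
      (hom_ref_of_path (key β hβ hdβ) hs (sgn α β s hs hsα hpf))
  refine ⟨ε, hε, key, fun α β hα hβ hpf hdα hdβ => ?_⟩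
  have hcα : Continuous α := continuous_matrix fun i j => (hα.smooth i j).continuous
  have hne : ∀ x, H.MP_df7994_gt.pf (α x) ≠ 0 := fun x h => by
    have h2 : 0 < H.MP_df7994_gt.pf (α x) * pfaffian (β x) := hpf x
    rw [h, zero_mul] at h2
    exact lt_irrefl _ h2
  obtain ⟨s, hs, hsα⟩ := H.MP_df7994_gt.SD.sign_const hcα hne
  exact (toref α s hα hs hsα hdα).trans (toref β s hβ hs (sgn α β s hs hsα hpf) hdβ).symm

end Pool.Agent.Results.MP_df7994_gt.SmallDilatation
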